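import Pool.Agent.P.MP_9167e9_an.StA

/-!
Module NEAR, part 1: words, walks and classes of words.
-/

noncomputable section
open scoped Classical
open FreeGroup

namespace Pool.Agent.P.MP_9167e9_an.Near

variable {j : ℕ} {C Z : Type}

theorem go_nil (τ : Fin j → Equiv.Perm C) (x : C) : go τ [] x = x := rfl

theorem go_append (τ : Fin j → Equiv.Perm C) (u v : List (Lt j)) (x : C) :
    go τ (u ++ v) x = go τ u (go τ v x) := by
  simp [go, List.foldr_append]

theorem go_inv_go (τ : Fin j → Equiv.Perm C) (u : List (Lt j)) (x : C) :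
    go τ (invRev u) (go τ u x) = x := by
  induction u with
  | nil => rfl
  | cons a u ih =>
    have h : go τ (invRev [a]) (go τ [a] (go τ u x)) = go τ u x := by
      obtain ⟨i, b⟩ := a
      cases b <;> simp [go, invRev]
    rw [invRev_cons, go_append, show a :: u = [a] ++ u from rfl, go_append, h, ih]

theorem go_go_inv (τ : Fin j → Equiv.Perm C) (u : List (Lt j)) (x : C) :
    go τ u (go τ (invRev u) x) = x := by
  have := go_inv_go τ (invRev u) x
  rwa [invRev_invRev] at this

/-- The starting point of the walk `u` that ends at `z`. -/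
def bk (τ : Fin j → Equiv.Perm C) (u : List (Lt j)) : C ≃ C :=
  ⟨go τ (invRev u), go τ u, go_go_inv τ u, go_inv_go τ u⟩

theorem bk_apply (τ : Fin j → Equiv.Perm C) (u : List (Lt j)) (z : C) :
    bk τ u z = go τ (invRev u) z := rfl

theorem go_bk (τ : Fin j → Equiv.Perm C) (u : List (Lt j)) (z : C) : go τ u (bk τ u z) = z :=
  go_go_inv τ u z

theorem bk_append (τ : Fin j → Equiv.Perm C) (u v : List (Lt j)) (z : C) :
    bk τ (u ++ v) z = bk τ v (bk τ u z) := by
  simp only [bk_apply, invRev_append, go_append]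

theorem eq_bk (τ : Fin j → Equiv.Perm C) (u : List (Lt j)) (x z : C) :
    x = bk τ u z ↔ z = go τ u x :=
  ⟨fun h => by rw [h, go_bk], fun h => by rw [h, bk_apply, go_inv_go]⟩

theorem mem_wds {n : ℕ} {u : List (Lt j)} : u ∈ wds j n ↔ u.length = n := by
  simp only [wds, Finset.mem_image, Finset.mem_univ, true_and]
  constructor
  · rintro ⟨f, rfl⟩
    simp
  · rintro rfl
    exact ⟨u.get, List.ofFn_get u⟩

theorem card_wds (n : ℕ) : (wds j n).card ≤ (2 * j) ^ n := by
  refine Finset.card_image_le.trans (le_of_eq ?_)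
  simp [Lt, mul_comm]

theorem hts_nil : hts ([] : List (Lt j)) = 0 := rfl

theorem hts_append (u v : List (Lt j)) : hts (u ++ v) = hts u + hts v := by simp [hts]

theorem hts_invRev (u : List (Lt j)) : hts (invRev u) = -hts u := by
  induction u with
  | nil => rfl
  | cons a u ih =>
    rw [invRev_cons, hts_append, ih, show a :: u = [a] ++ u from rfl, hts_append]
    obtain ⟨i, b⟩ := a
    cases b <;> simp [hts, invRev]

theorem hts_le (u : List (Lt j)) : hts u ≤ u.length := by
  induction u with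
  | nil => simp [hts]
  | cons a u ih =>
    rw [show a :: u = [a] ++ u from rfl, hts_append, List.length_append]
    have : hts [a] ≤ 1 := by
      obtain ⟨i, b⟩ := a
      cases b <;> simp [hts]
    simp only [List.length_singleton]
    push_cast
    omega

theorem red_append {u v : List (Lt j)} : IsReduced (u ++ v) ↔ IsReduced u ∧ IsReduced v ∧
    ∀ x ∈ u.getLast?, ∀ y ∈ v.head?, x.1 = y.1 → x.2 = y.2 := List.isChain_append

theorem red_head {u v : List (Lt j)} :
    IsReduced (u ++ v) ↔ IsReduced v ∧ IsReduced (u ++ v.head?.toList) := by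
  cases v with
  | nil => simp
  | cons a v =>
    rw [red_append, red_append]
    simp only [List.head?_cons, Option.toList_some, IsReduced.singleton, true_and]
    tauto

theorem head_head (u v : List (Lt j)) : (u ++ v).head? = (u ++ v.head?.toList).head? := by
  cases u <;> cases v <;> simp

theorem red_invRev {u : List (Lt j)} (h : IsReduced u) : IsReduced (invRev u) := by
  rw [isReduced_iff_not_step] at h ⊢
  intro L hL
  refine h (invRev L) ?_
  have := hL.invRev
  rwa [invRev_invRev] at this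

/-- The two last steps differ. -/
def Cp (b b' : Option (Lt j)) : Prop := ∀ x, b = some x → b' ≠ some x

theorem Cp.symm {b b' : Option (Lt j)} (h : Cp b b') : Cp b' b := fun x h1 h2 => h x h2 h1

theorem red_join {u u' : List (Lt j)} :
    IsReduced (invRev u' ++ u) ↔ IsReduced u' ∧ IsReduced u ∧ Cp u.head? u'.head? := by
  rw [red_append]
  have h1 : IsReduced (invRev u') ↔ IsReduced u' :=
    ⟨fun h => by simpa using red_invRev h, red_invRev⟩
  rw [h1]
  refine and_congr_right fun _ => and_congr_right fun _ => ?_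
  cases u' with
  | nil => simp [Cp]
  | cons a u' =>
    cases u with
    | nil => simp [Cp]
    | cons c u =>
      obtain ⟨i, b⟩ := a
      obtain ⟨i', b'⟩ := c
      rw [invRev_cons]
      cases b <;> cases b' <;> simp [Cp, invRev]

theorem U_go {τ : Fin j → Equiv.Perm C} {U : C → ℕ → Finset Z}
    (h1 : ∀ π a l, U π a ⊆ U (go τ [l] π) (a + 1)) (u : List (Lt j)) (π : C) (a : ℕ) :
    U π a ⊆ U (go τ u π) (a + u.length) := by
  induction u with
  | nil => exact subset_rfl
  | cons x u ih => exact ih.trans (h1 (go τ u π) (a + u.length) x)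

theorem U_mono {U : C → ℕ → Finset Z} (h2 : ∀ π a, U π a ⊆ U π (a + 1)) (π : C) {a b : ℕ}
    (h : a ≤ b) : U π a ⊆ U π b := by
  induction h with
  | refl => exact subset_rfl
  | step _ ih => exact ih.trans (h2 π _)

/-- Every non-empty final part of the walk `u` climbs by at least `e`. -/
def Pre (e : ℤ) (u : List (Lt j)) : Prop := ∀ v, v <+: u → v ≠ [] → e ≤ hts v

theorem Pre.nonneg {e : ℤ} {u v : List (Lt j)} (h : Pre e u) (he : 0 ≤ e) (hv : v <+: u) :
    0 ≤ hts v := by
  by_cases h0 : v = []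
  · rw [h0, hts_nil]
  · exact he.trans (h v hv h0)

theorem pre_append {e : ℤ} {u v : List (Lt j)} :
    Pre e (u ++ v) ↔ Pre e u ∧ ∀ v1, v1 <+: v → v1 ≠ [] → e ≤ hts u + hts v1 := by
  constructor
  · refine fun h => ⟨fun w hw h0 => h w (hw.trans (List.prefix_append u v)) h0, fun w hw h0 => ?_⟩
    rw [← hts_append]
    exact h _ ((List.prefix_append_right_inj u).2 hw) (by simp [h0])
  · rintro ⟨h1, h2⟩ w hw h0
    rcases List.prefix_or_prefix_of_prefix hw (List.prefix_append u v) with h | ⟨t, rfl⟩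
    · exact h1 w h h0
    · by_cases ht : t = []
      · subst ht
        exact h1 _ (by simp) h0
      · rw [hts_append]
        exact h2 t ((List.prefix_append_right_inj u).1 hw) ht

theorem exists_dec (m : List (Lt j)) : ∃ u u', m = invRev u' ++ u ∧ Pre 1 u ∧ Pre 0 u' := by
  induction m with
  | nil => exact ⟨[], [], rfl, fun v hv h => absurd (List.prefix_nil.1 hv) h,
      fun v hv h => absurd (List.prefix_nil.1 hv) h⟩
  | cons x m ih =>
    obtain ⟨u, u', rfl, h1, h2⟩ := ih
    by_cases h : 1 ≤ hts (x :: invRev u')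
    · refine ⟨(x :: invRev u') ++ u, [], rfl, pre_append.2 ⟨fun v hv h0 => ?_, fun v hv _ => ?_⟩,
        fun v hv h => absurd (List.prefix_nil.1 hv) h⟩
      · obtain ⟨t, ht⟩ := hv
        cases v with
        | nil => exact absurd rfl h0
        | cons y v =>
          rw [← ht, hts_append] at h
          have e1 : v ++ t = invRev u' := (List.cons.inj ht).2
          have e2 : u' = invRev t ++ invRev v := by rw [← invRev_append, e1, invRev_invRev]
          have := h2.nonneg le_rfl (v := invRev t) ⟨_, e2.symm⟩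
          rw [hts_invRev] at this
          omega
      · have := h1.nonneg zero_le_one hv
        omega
    · refine ⟨u, u' ++ invRev [x], by simp [invRev_append], h1, pre_append.2 ⟨h2, fun v hv h0 => ?_⟩⟩
      have e1 : v = invRev [x] := by
        refine hv.eq_of_length (le_antisymm hv.length_le ?_)
        rw [invRev_length]
        exact List.length_pos_iff.2 h0
      rw [show x :: invRev u' = [x] ++ invRev u' from rfl, hts_append, hts_invRev] at h
      rw [e1, hts_invRev]
      omega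

theorem dec_unique {u₁ u₁' u₂ u₂' : List (Lt j)} (h : invRev u₁' ++ u₁ = invRev u₂' ++ u₂)
    (h1 : Pre 1 u₁) (h1' : Pre 0 u₁') (h2 : Pre 1 u₂) (h2' : Pre 0 u₂') :
    u₁ = u₂ ∧ u₁' = u₂' := by
  have key : ∀ {v₁ v₁' v₂ v₂' a : List (Lt j)}, invRev v₂' = invRev v₁' ++ a → v₁ = a ++ v₂ →
      Pre 1 v₁ → Pre 0 v₂' → v₁ = v₂ ∧ v₁' = v₂' := by
    intro v₁ v₁' v₂ v₂' a e1 e2 p1 p2
    have e3 : v₂' = invRev a ++ v₁' := by
      rw [← invRev_invRev (L₁ := v₂'), e1, invRev_append, invRev_invRev]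
    have ha : a = [] := by
      by_contra h0
      have a1 := p1 a ⟨_, e2.symm⟩ h0
      have a2 := p2.nonneg le_rfl (v := invRev a) ⟨_, e3.symm⟩
      rw [hts_invRev] at a2
      omega
    subst ha
    exact ⟨e2, by simpa using e3.symm⟩
  rcases List.append_eq_append_iff.1 h with ⟨a, e1, e2⟩ | ⟨a, e1, e2⟩
  · exact key e1 e2 h1 h2'
  · exact (key e1 e2 h2 h1').imp Eq.symm Eq.symm

/-- The data of one side: `a` steps are already absorbed, the last of them is `l`; words of length
`r` remain, with last step `b`, climbing condition `e` and height `S`. -/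
structure Lv (j : ℕ) where
  a : ℕ
  l : Option (Lt j)
  r : ℕ
  b : Option (Lt j)
  e : ℤ
  S : ℤ

/-- The class of words of a side. -/
def Cls (L : Lv j) : Finset (List (Lt j)) :=
  (wds j L.r).filter fun u => IsReduced (u ++ L.l.toList) ∧ (u ++ L.l.toList).head? = L.b ∧
    hts u = L.S ∧ Pre L.e u

theorem mem_Cls {L : Lv j} {u : List (Lt j)} : u ∈ Cls L ↔ u.length = L.r ∧
    IsReduced (u ++ L.l.toList) ∧ (u ++ L.l.toList).head? = L.b ∧ hts u = L.S ∧ Pre L.e u := by
  rw [Cls, Finset.mem_filter, mem_wds]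

theorem card_Cls (L : Lv j) : (Cls L).card ≤ (2 * j) ^ L.r :=
  (Finset.card_filter_le _ _).trans (card_wds _)

/-- The side after one splitting step. -/
def Lv.ch (L : Lv j) (l1 : Lt j) (S1 : ℕ) : Lv j :=
  ⟨L.a + (L.r - L.r / 2), some l1, L.r / 2, L.b, L.e, S1⟩

/-- The first halves of the words. -/
def Vs (L : Lv j) (l1 : Lt j) (S1 : ℕ) : Finset (List (Lt j)) :=
  (idx j L.r L.l).filter fun v => v.head? = some l1 ∧ S1 + hts v = L.S ∧
    ∀ v1, v1 <+: v → v1 ≠ [] → L.e ≤ S1 + hts v1

theorem mem_idx {r : ℕ} {l : Option (Lt j)} {v : List (Lt j)} :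
    v ∈ idx j r l ↔ v.length = r - r / 2 ∧ IsReduced (v ++ l.toList) := by
  rw [idx, Finset.mem_filter, mem_wds]

theorem mem_Vs {L : Lv j} {l1 : Lt j} {S1 : ℕ} {v : List (Lt j)} : v ∈ Vs L l1 S1 ↔
    (v.length = L.r - L.r / 2 ∧ IsReduced (v ++ L.l.toList)) ∧ v.head? = some l1 ∧
      S1 + hts v = L.S ∧ ∀ v1, v1 <+: v → v1 ≠ [] → L.e ≤ S1 + hts v1 := by
  rw [Vs, Finset.mem_filter, mem_idx]

theorem sum_split {L : Lv j} {R : ℕ} (hr : 1 ≤ L.r) (hR : L.r ≤ R) (he : 0 ≤ L.e)
    (f : List (Lt j) → ℂ) :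
    ∑ u ∈ Cls L, f u = ∑ c ∈ (Finset.univ : Finset (Lt j)) ×ˢ Finset.range (R + 1),
      ∑ u ∈ Cls (L.ch c.1 c.2), ∑ v ∈ Vs L c.1 c.2, f (u ++ v) := by
  simp only [Finset.sum_sigma']
  symm
  refine Finset.sum_bij (fun x _ => x.2.1 ++ x.2.2) ?_ ?_ ?_ (fun _ _ => rfl)
  · rintro ⟨⟨l1, S1⟩, u, v⟩ hx
    simp only [Finset.mem_sigma, mem_Cls, mem_Vs, Lv.ch] at hx
    obtain ⟨-, ⟨a1, a2, a3, a4, a5⟩, ⟨b1, b2⟩, b3, b4, b5⟩ := hx
    have hh : (v ++ L.l.toList).head? = some l1 := by
      rw [List.head?_append, b3]; rfl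
    refine mem_Cls.2 ⟨?_, ?_, ?_, ?_, ?_⟩
    · rw [List.length_append, a1, b1]; omega
    · rw [List.append_assoc, red_head, hh]
      exact ⟨b2, a2⟩
    · rw [List.append_assoc, head_head, hh]
      exact a3
    · rw [hts_append, a4, b4]
    · exact pre_append.2 ⟨a5, by rw [a4]; exact b5⟩
  · rintro ⟨⟨l1, S1⟩, u, v⟩ hx ⟨⟨l1', S1'⟩, u', v'⟩ hx' e
    simp only [Finset.mem_sigma, mem_Cls, mem_Vs, Lv.ch] at hx hx' e
    obtain ⟨-, ⟨a1, -, -, a4, -⟩, -, b3, -, -⟩ := hx
    obtain ⟨-, ⟨a1', -, -, a4', -⟩, -, b3', -, -⟩ := hx'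
    obtain ⟨rfl, rfl⟩ := List.append_inj e (a1.trans a1'.symm)
    obtain rfl : l1 = l1' := Option.some.inj (b3.symm.trans b3')
    obtain rfl : S1 = S1' := by exact_mod_cast a4.symm.trans a4'
    rfl
  · intro w hw
    obtain ⟨a1, a2, a3, a4, a5⟩ := mem_Cls.1 hw
    obtain ⟨u, v, rfl, hu⟩ : ∃ u v, w = u ++ v ∧ u.length = L.r / 2 :=
      ⟨w.take (L.r / 2), w.drop (L.r / 2), (List.take_append_drop _ _).symm, by
        rw [List.length_take, a1]; omega⟩
    have hv : v.length = L.r - L.r / 2 := by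
      rw [List.length_append] at a1; omega
    obtain ⟨l1, hl⟩ : ∃ l1, v.head? = some l1 := by
      cases v with
      | nil => simp at hv; omega
      | cons x v => exact ⟨x, rfl⟩
    have hh : (v ++ L.l.toList).head? = some l1 := by
      rw [List.head?_append, hl]; rfl
    obtain ⟨p1, p2⟩ := pre_append.1 a5
    have h0 : 0 ≤ hts u := p1.nonneg he List.prefix_rfl
    have h1 := hts_le u
    obtain ⟨S1, hS⟩ := Int.eq_ofNat_of_zero_le h0
    rw [List.append_assoc, red_head, hh] at a2
    rw [List.append_assoc, head_head, hh] at a3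
    rw [hts_append] at a4
    refine ⟨⟨(l1, S1), u, v⟩, ?_, rfl⟩
    simp only [Finset.mem_sigma, mem_Cls, mem_Vs, Lv.ch, Finset.mem_product, Finset.mem_univ,
      Finset.mem_range, true_and]
    exact ⟨by omega, ⟨hu, a2.2, a3, hS, p1⟩, ⟨hv, a2.1⟩, hl, by rw [← hS, a4],
      by rw [← hS]; exact p2⟩

end Pool.Agent.P.MP_9167e9_an.Near
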