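import Pool.Agent.P.MP_9167e9_an.Near.Step

/-!
Module NEAR, part 3: the decomposition at the highest point and the final bound.
-/

noncomputable section
open scoped Classical
open FreeGroup

namespace Pool.Agent.P.MP_9167e9_an

namespace Near

variable {j : ℕ} {C Z : Type}

/-- Indices of the classes at the top level. -/
abbrev Ix (j : ℕ) : Type := ℕ × Option (Lt j) × ℕ

/-- All indices. -/
def ixs (j R : ℕ) : Finset (Ix j) :=
  Finset.range (R + 1) ×ˢ (Finset.univ ×ˢ Finset.range (R + 1))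

/-- The side with index `c`. -/
def top (e : ℤ) (c : Ix j) : Lv j := ⟨0, none, c.1, c.2.1, e, c.2.2⟩

/-- The index of a word. -/
def ixOf (u : List (Lt j)) : Ix j := (u.length, u.head?, (hts u).toNat)

/-- The coefficient of a pair of classes. -/
def cf (R : ℕ) (φ : ℝ) (c c' : Ix j) : ℂ :=
  if c.1 + c'.1 ≤ R ∧ Cp c.2.1 c'.2.1 then
    Complex.exp ((φ * (((c'.2.2 : ℤ) - (c.2.2 : ℤ) : ℤ) : ℝ) : ℝ) * Complex.I) else 0

theorem mem_top {e : ℤ} (he : 0 ≤ e) {c : Ix j} {u : List (Lt j)} :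
    u ∈ Cls (top e c) ↔ IsReduced u ∧ Pre e u ∧ c = ixOf u := by
  obtain ⟨r, b, S⟩ := c
  simp only [mem_Cls, top, ixOf, Option.toList_none, List.append_nil, Prod.mk.injEq]
  constructor
  · rintro ⟨h1, h2, h3, h4, h5⟩
    exact ⟨h2, h5, h1.symm, h3.symm, by omega⟩
  · rintro ⟨h1, h2, h3, h4, h5⟩
    have := h2.nonneg he List.prefix_rfl
    exact ⟨h3.symm, h1, h4.symm, by omega, h2⟩

theorem ixOf_mem {R : ℕ} {u : List (Lt j)} (h : u.length ≤ R) : ixOf u ∈ ixs j R := by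
  have := hts_le u
  simp only [ixs, ixOf, Finset.mem_product, Finset.mem_range, Finset.mem_univ, true_and]
  omega

theorem one_term {τ : Fin j → Equiv.Perm C} {R : ℕ}
    (hi : ∀ x u u', IsReduced u → IsReduced u' → u.length ≤ R → u'.length ≤ R →
      go τ u x = go τ u' x → u = u') (φ : ℝ) {m : List (Lt j)} (hm : IsReduced m)
    (hR : m.length ≤ R) (x : C) (k : ℂ) :
    ∑ c ∈ ixs j R, ∑ c' ∈ ixs j R, cf R φ c c' * ∑ u ∈ Cls (top 1 c), ∑ u' ∈ Cls (top 0 c'),
      (if go τ u x = go τ u' (go τ m x) then k else 0) =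
      k * Complex.exp ((φ * ((-hts m : ℤ) : ℝ) : ℝ) * Complex.I) := by
  obtain ⟨u₀, u₀', rfl, p1, p2⟩ := exists_dec m
  obtain ⟨r1, r2, r3⟩ := red_join.1 hm
  rw [List.length_append, invRev_length] at hR
  have key : ∀ c c' u u', u ∈ Cls (top 1 c) → u' ∈ Cls (top 0 c') → cf R φ c c' ≠ 0 →
      go τ u x = go τ u' (go τ (invRev u₀' ++ u₀) x) → u = u₀ ∧ u' = u₀' := by
    intro c c' u u' hu hu' h0 h1
    obtain ⟨a1, a2, rfl⟩ := (mem_top zero_le_one).1 hu
    obtain ⟨b1, b2, rfl⟩ := (mem_top le_rfl).1 hu'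
    have h2 : u.length + u'.length ≤ R ∧ Cp u.head? u'.head? := by
      by_contra h
      exact h0 (if_neg h)
    refine dec_unique (hi x _ _ (red_join.2 ⟨b1, a1, h2.2⟩) hm ?_ ?_ ?_) a2 b2 p1 p2
    · rw [List.length_append, invRev_length]; omega
    · rw [List.length_append, invRev_length]; omega
    · rw [go_append, h1, go_inv_go]
  have m1 : u₀ ∈ Cls (top 1 (ixOf u₀)) := (mem_top zero_le_one).2 ⟨r2, p1, rfl⟩
  have m2 : u₀' ∈ Cls (top 0 (ixOf u₀')) := (mem_top le_rfl).2 ⟨r1, p2, rfl⟩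
  have z : ∀ c c', (c ≠ ixOf u₀ ∨ c' ≠ ixOf u₀') →
      cf R φ c c' * ∑ u ∈ Cls (top 1 c), ∑ u' ∈ Cls (top 0 c'),
        (if go τ u x = go τ u' (go τ (invRev u₀' ++ u₀) x) then k else 0) = 0 := by
    intro c c' h
    by_cases h0 : cf R φ c c' = 0
    · rw [h0, zero_mul]
    · refine mul_eq_zero_of_right _ (Finset.sum_eq_zero fun u hu => Finset.sum_eq_zero
        fun u' hu' => if_neg fun h1 => ?_)
      obtain ⟨rfl, rfl⟩ := key c c' u u' hu hu' h0 h1
      exact h.elim (fun h => h ((mem_top zero_le_one).1 hu).2.2)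
        fun h => h ((mem_top le_rfl).1 hu').2.2
  have hc : cf R φ (ixOf u₀) (ixOf u₀') =
      Complex.exp ((φ * ((-hts (invRev u₀' ++ u₀) : ℤ) : ℝ) : ℝ) * Complex.I) := by
    have e1 := p1.nonneg zero_le_one List.prefix_rfl
    have e2 := p2.nonneg le_rfl List.prefix_rfl
    rw [cf, if_pos ⟨by simp only [ixOf]; omega, r3⟩, hts_append, hts_invRev]
    simp only [ixOf, Int.toNat_of_nonneg e1, Int.toNat_of_nonneg e2]
    congr 5
    ring
  have h0 : cf R φ (ixOf u₀) (ixOf u₀') ≠ 0 := hc ▸ Complex.exp_ne_zero _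
  rw [Finset.sum_eq_single_of_mem (ixOf u₀) (ixOf_mem (by omega)) fun c _ h =>
      Finset.sum_eq_zero fun c' _ => z c c' (Or.inl h),
    Finset.sum_eq_single_of_mem (ixOf u₀') (ixOf_mem (by omega)) fun c' _ h => z _ c' (Or.inr h),
    Finset.sum_eq_single_of_mem u₀ m1 fun u hu h => Finset.sum_eq_zero fun u' hu' =>
      if_neg fun h1 => h (key _ _ u u' hu hu' h0 h1).1,
    Finset.sum_eq_single_of_mem u₀' m2 fun u' hu' h =>
      if_neg fun h1 => h (key _ _ u₀ u' m1 hu' h0 h1).2,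
    if_pos (by rw [go_append, go_go_inv]), hc, mul_comm]

variable {τ : Fin j → Equiv.Perm C} {q : Z → C} {U : C → ℕ → Finset Z}

theorem sum_Fb {s : Finset Z} (hs : ∀ w ∈ s, w ∈ U (q w) 0) {M : Type} [AddCommMonoid M] (e : ℤ)
    (c : Ix j) (π : C) (g : Z → M) :
    ∑ w ∈ Fb τ q U (top e c) π, (if w ∈ s then g w else 0) =
      ∑ w ∈ s, if q w = π then g w else 0 := by
  rw [← Finset.sum_filter, ← Finset.sum_filter]
  refine Finset.sum_congr (Finset.ext fun w => ?_) fun _ _ => rfl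
  simp only [Finset.mem_filter, mem_Fb, top, List.length_eq_zero_iff]
  constructor
  · rintro ⟨⟨-, v, -, rfl, -, h⟩, h'⟩
    exact ⟨h', h⟩
  · rintro ⟨h, rfl⟩
    exact ⟨⟨hs w h, [], IsReduced.nil, rfl, rfl, rfl⟩, h⟩

variable [Fintype C]

theorem Nm_top {s : Finset Z} (hs : ∀ w ∈ s, w ∈ U (q w) 0) (e : ℤ) (c : Ix j) (ξ : Z → ℂ) :
    Nm τ q U (top e c) (fun _ w => if w ∈ s then ξ w else 0) = nsq s ξ := by
  have h : ∀ w, ‖if w ∈ s then ξ w else 0‖ ^ 2 = if w ∈ s then ‖ξ w‖ ^ 2 else 0 := fun w => by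
    split_ifs <;> simp
  simp only [Nm, nsq, h, sum_Fb hs]
  rw [Finset.sum_comm]
  simp

theorem Ph_top {s t : Finset Z} (hs : ∀ w ∈ s, w ∈ U (q w) 0) (ht : ∀ w ∈ t, w ∈ U (q w) 0)
    (X : Z → Z → ℂ) (e e' : ℤ) (c c' : Ix j) (ξ ζ : Z → ℂ) :
    Ph τ q U X (top e c) (top e' c') (fun _ w => if w ∈ s then ξ w else 0)
      (fun _ w => if w ∈ t then ζ w else 0) = ∑ w ∈ s, ∑ w' ∈ t, ∑ u ∈ Cls (top e c),
        ∑ u' ∈ Cls (top e' c'),
          if go τ u (q w) = go τ u' (q w') then ξ w * X w w' * ζ w' else 0 := by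
  have h : ∀ u u' : List (Lt j), ∑ z, ip X (Fb τ q U (top e c) (bk τ u z))
      (Fb τ q U (top e' c') (bk τ u' z)) (fun w => if w ∈ s then ξ w else 0)
      (fun w => if w ∈ t then ζ w else 0) = ∑ w ∈ s, ∑ w' ∈ t,
        if go τ u (q w) = go τ u' (q w') then ξ w * X w w' * ζ w' else 0 := by
    intro u u'
    simp only [ip, mul_ite, ite_mul, mul_zero, zero_mul, sum_Fb ht, eq_bk]
    have h1 : ∀ z w, (∑ w' ∈ t, if z = go τ u' (q w') then
        (if w ∈ s then ξ w * X w w' * ζ w' else 0) else 0) = if w ∈ s then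
          ∑ w' ∈ t, if z = go τ u' (q w') then ξ w * X w w' * ζ w' else 0 else 0 := by
      intro z w
      split_ifs <;> simp
    simp only [h1, sum_Fb hs, eq_bk]
    rw [Finset.sum_comm]
    simp only [Finset.sum_ite_eq', Finset.mem_univ, if_true]
  simp only [Ph, h]
  rw [Finset.sum_congr rfl fun u _ => Finset.sum_comm, Finset.sum_comm]
  refine Finset.sum_congr rfl fun w _ => ?_
  rw [Finset.sum_congr rfl fun u _ => Finset.sum_comm, Finset.sum_comm]

end Near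

open Near

theorem pNear : StNear := by
  intro j C Z _ τ q U R Nr H X Λ s φ hj hi hH hN h1 h2 hXN hX hs hS hS' s₀ t₀ ξ ζ
  have := Fintype.ofFinite C
  rcases s₀.eq_empty_or_nonempty with rfl | ⟨w₀, -⟩
  · simp [nsq]
  have hΛ : 0 ≤ Λ := by
    have := hX {w₀} {w₀} (fun _ => 1) (fun _ => 1)
    simp only [nsq, Finset.sum_singleton, NormOneClass.norm_one, one_pow, Real.sqrt_one,
      mul_one] at this
    exact (norm_nonneg _).trans this
  set s₁ := s₀.filter (· ∈ Nr) with hs₁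
  set t₁ := t₀.filter (· ∈ Nr) with ht₁
  have a1 : ∀ w ∈ s₁, w ∈ U (q w) 0 := fun w hw => hN w (Finset.mem_filter.1 hw).2
  have a2 : ∀ w ∈ t₁, w ∈ U (q w) 0 := fun w hw => hN w (Finset.mem_filter.1 hw).2
  have e : ∑ w ∈ s₀, ∑ w' ∈ t₀, ξ w * (if w ∈ Nr ∧ w' ∈ Nr then
      tw (fun a b => H (q a) (q b)) φ X w w' else 0) * ζ w' =
      ∑ c ∈ ixs j R, ∑ c' ∈ ixs j R, cf R φ c c' * Ph τ q U X (top 1 c) (top 0 c')
        (fun _ w => if w ∈ s₁ then ξ w else 0) (fun _ w => if w ∈ t₁ then ζ w else 0) := by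
    have e1 : ∑ w ∈ s₀, ∑ w' ∈ t₀, ξ w * (if w ∈ Nr ∧ w' ∈ Nr then
        tw (fun a b => H (q a) (q b)) φ X w w' else 0) * ζ w' =
        ∑ w ∈ s₁, ∑ w' ∈ t₁, ξ w * tw (fun a b => H (q a) (q b)) φ X w w' * ζ w' := by
      rw [hs₁, Finset.sum_filter]
      refine Finset.sum_congr rfl fun w _ => ?_
      rw [ht₁, Finset.sum_filter]
      by_cases hw : w ∈ Nr
      · rw [if_pos hw]
        refine Finset.sum_congr rfl fun w' _ => ?_
        by_cases hw' : w' ∈ Nr <;> simp [hw, hw']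
      · simp [hw]
    rw [e1]
    simp only [Ph_top a1 a2]
    have e2 : ∀ (c c' : Ix j) (F : Z → Z → ℂ), cf R φ c c' * ∑ w ∈ s₁, ∑ w' ∈ t₁, F w w' =
        ∑ w ∈ s₁, ∑ w' ∈ t₁, cf R φ c c' * F w w' := fun c c' F => by
      simp only [Finset.mul_sum]
    simp only [e2]
    symm
    rw [Finset.sum_congr rfl fun c _ => Finset.sum_comm, Finset.sum_comm]
    refine Finset.sum_congr rfl fun w hw => ?_
    rw [Finset.sum_congr rfl fun c _ => Finset.sum_comm, Finset.sum_comm]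
    refine Finset.sum_congr rfl fun w' hw' => ?_
    by_cases h0 : X w w' = 0
    · simp [tw, h0]
    · obtain ⟨m, m1, m2, m3⟩ := hXN w (Finset.mem_filter.1 hw).2 w' (Finset.mem_filter.1 hw').2 h0
      have := hH (q w') (invRev m) (red_invRev m1) (by rwa [invRev_length])
      rw [hts_invRev, show go τ (invRev m) (q w') = q w by rw [← m3, go_inv_go]] at this
      rw [tw, this, ← m3, one_term hi φ m1 m2]
      ring
  have hj' : (1 : ℝ) ≤ j := by exact_mod_cast hj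
  have hR0 : (0 : ℝ) ≤ R := Nat.cast_nonneg R
  have hs1 : (1 : ℝ) ≤ s + 1 := by linarith
  set K : ℝ := (2 * j + 1) * (R + 1) * (s + 1) with hK
  have n1 : √(nsq s₁ ξ) ≤ √(nsq s₀ ξ) := Real.sqrt_le_sqrt
    (Finset.sum_le_sum_of_subset_of_nonneg (Finset.filter_subset _ _) fun _ _ _ => sq_nonneg _)
  have n2 : √(nsq t₁ ζ) ≤ √(nsq t₀ ζ) := Real.sqrt_le_sqrt
    (Finset.sum_le_sum_of_subset_of_nonneg (Finset.filter_subset _ _) fun _ _ _ => sq_nonneg _)
  have hK0 : 0 ≤ K := by positivity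
  have hsz : ∀ r ≤ R, r.size ≤ Nat.log 2 R + 1 := fun r hr =>
    Nat.size_le.2 (hr.trans_lt (Nat.lt_pow_succ_log_self one_lt_two R))
  rw [e]
  refine (norm_sum_le_of_le _ fun c _ => norm_sum_le_of_le _
    (n := fun _ => K ^ (2 * Nat.log 2 R + 2) * Λ * √(nsq s₀ ξ) * √(nsq t₀ ζ))
    fun c' _ => ?_).trans ?_
  · rw [cf]
    split_ifs with hc
    · rw [norm_mul, Complex.norm_exp_ofReal_mul_I, one_mul]
      refine (bound hj hi h1 h2 hΛ hs (2 * Nat.log 2 R + 2) X hX hS hS' (top 1 c) (top 0 c') ?_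
        zero_le_one le_rfl (by simp only [top]; omega) hc.2 _ _).trans ?_
      · have b1 := hsz c.1 (by omega)
        have b2 := hsz c'.1 (by omega)
        simp only [top]
        omega
      · rw [Nm_top a1, Nm_top a2]
        gcongr
    · rw [zero_mul, norm_zero]
      positivity
  · have hc : ((ixs j R).card : ℝ) ≤ K ^ 2 := by
      simp only [ixs, Finset.card_product, Finset.card_range, Finset.card_univ,
        Fintype.card_option, Fintype.card_prod, Fintype.card_fin, Fintype.card_bool]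
      push_cast
      have b1 : (R + 1 : ℝ) ≤ K := by
        calc (R + 1 : ℝ) = 1 * (R + 1) * 1 := by ring
          _ ≤ K := by rw [hK]; gcongr; linarith
      have b2 : (j * 2 + 1) * (R + 1 : ℝ) ≤ K := by
        calc (j * 2 + 1) * (R + 1 : ℝ) = (2 * j + 1) * (R + 1) * 1 := by ring
          _ ≤ K := by rw [hK]; gcongr
      rw [sq]
      gcongr
    simp only [Finset.sum_const, nsmul_eq_mul]
    calc _ ≤ K ^ 2 * (K ^ 2 * (K ^ (2 * Nat.log 2 R + 2) * Λ * √(nsq s₀ ξ) * √(nsq t₀ ζ))) := by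
          gcongr
      _ = _ := by ring

end Pool.Agent.P.MP_9167e9_an
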