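import Pool.Agent.P.MP_9167e9_an.Near.Wd

/-!
Module NEAR, part 2: the splitting step and the induction.
-/

noncomputable section
open scoped Classical
open FreeGroup

namespace Pool.Agent.P.MP_9167e9_an.Near

variable {j : ℕ} {C Z : Type}

/-- The bilinear form of `X` on `F × F'`. -/
def ip (X : Z → Z → ℂ) (F F' : Finset Z) (ξ ζ : Z → ℂ) : ℂ :=
  ∑ w ∈ F, ∑ w' ∈ F', ξ w * X w w' * ζ w'

theorem ip_swap (X : Z → Z → ℂ) (F F' : Finset Z) (ξ ζ : Z → ℂ) :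
    ip (fun w w' => X w' w) F' F ζ ξ = ip X F F' ξ ζ := by
  rw [ip, ip, Finset.sum_comm]
  exact Finset.sum_congr rfl fun _ _ => Finset.sum_congr rfl fun _ _ => by ring

theorem nsq_nonneg (s : Finset Z) (ξ : Z → ℂ) : 0 ≤ nsq s ξ :=
  Finset.sum_nonneg fun _ _ => sq_nonneg _

theorem FB.swap {X : Z → Z → ℂ} {Λ : ℝ} (h : FB X Λ) : FB (fun w w' => X w' w) Λ := by
  intro s t ξ ζ
  have h1 := h t s ζ ξ
  have h2 := ip_swap X t s ζ ξ
  rw [ip, ip] at h2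
  rw [h2, mul_right_comm]
  exact h1

variable [Fintype C] (τ : Fin j → Equiv.Perm C) (q : Z → C) (U : C → ℕ → Finset Z)

/-- The fibre of a side. -/
def Fb (L : Lv j) (π : C) : Finset Z := Fib τ q U π L.a L.l

/-- The squared norm of a level vector. -/
def Nm (L : Lv j) (ξ : C → Z → ℂ) : ℝ := ∑ π, nsq (Fb τ q U L π) (ξ π)

/-- The form on level vectors. -/
def Ph (X : Z → Z → ℂ) (L L' : Lv j) (ξ ζ : C → Z → ℂ) : ℂ :=
  ∑ u ∈ Cls L, ∑ u' ∈ Cls L', ∑ z, ip X (Fb τ q U L (bk τ u z)) (Fb τ q U L' (bk τ u' z))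
    (ξ (bk τ u z)) (ζ (bk τ u' z))

theorem Ph_swap (X : Z → Z → ℂ) (L L' : Lv j) (ξ ζ : C → Z → ℂ) :
    Ph τ q U (fun w w' => X w' w) L' L ζ ξ = Ph τ q U X L L' ξ ζ := by
  rw [Ph, Ph, Finset.sum_comm]
  simp only [ip_swap]

theorem Nm_nonneg (L : Lv j) (ξ : C → Z → ℂ) : 0 ≤ Nm τ q U L ξ :=
  Finset.sum_nonneg fun _ _ => nsq_nonneg _ _

theorem cs (L L' : Lv j) (ξ ζ : C → Z → ℂ) (u u' : List (Lt j)) {c : ℝ} (hc : 0 ≤ c)
    (f : C → ℂ) (hf : ∀ z, ‖f z‖ ≤ c * √(nsq (Fb τ q U L (bk τ u z)) (ξ (bk τ u z))) *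
      √(nsq (Fb τ q U L' (bk τ u' z)) (ζ (bk τ u' z)))) :
    ‖∑ z, f z‖ ≤ c * √(Nm τ q U L ξ) * √(Nm τ q U L' ζ) := by
  refine (norm_sum_le _ _).trans ((Finset.sum_le_sum fun z _ => hf z).trans ?_)
  simp only [mul_assoc]
  rw [← Finset.mul_sum]
  refine mul_le_mul_of_nonneg_left ?_ hc
  rw [Nm, Nm, ← (bk τ u).sum_comp (fun π => nsq (Fb τ q U L π) (ξ π)),
    ← (bk τ u').sum_comp (fun π => nsq (Fb τ q U L' π) (ζ π))]
  exact Real.sum_sqrt_mul_sqrt_le _ (fun _ => nsq_nonneg _ _) (fun _ => nsq_nonneg _ _)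

theorem base {X : Z → Z → ℂ} {Λ : ℝ} (hΛ : 0 ≤ Λ) (hX : FB X Λ) {L L' : Lv j} (h : L.r = 0)
    (h' : L'.r = 0) (ξ ζ : C → Z → ℂ) :
    ‖Ph τ q U X L L' ξ ζ‖ ≤ Λ * √(Nm τ q U L ξ) * √(Nm τ q U L' ζ) := by
  have c1 : ((Cls L).card : ℝ) ≤ 1 := by exact_mod_cast (card_Cls L).trans (by rw [h, pow_zero])
  have c2 : ((Cls L').card : ℝ) ≤ 1 := by
    exact_mod_cast (card_Cls L').trans (by rw [h', pow_zero])
  have hp : 0 ≤ Λ * √(Nm τ q U L ξ) * √(Nm τ q U L' ζ) := by positivity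
  refine (norm_sum_le_of_le _ fun u _ => norm_sum_le_of_le _ fun u' _ =>
    cs τ q U L L' ξ ζ u u' hΛ _ fun z => hX _ _ _ _).trans ?_
  simp only [Finset.sum_const, nsmul_eq_mul]
  exact (mul_le_of_le_one_left (by positivity) c1).trans (mul_le_of_le_one_left hp c2)

variable {τ q U}

omit [Fintype C] in
theorem mem_Fb {L : Lv j} {π : C} {w : Z} : w ∈ Fb τ q U L π ↔ w ∈ U π L.a ∧
    ∃ v, IsReduced v ∧ v.length = L.a ∧ v.head? = L.l ∧ go τ v (q w) = π := by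
  rw [Fb, Fib, Finset.mem_filter]

omit [Fintype C] in
theorem Fb_sub_Bey {R : ℕ} (h1 : ∀ π a l, U π a ⊆ U (go τ [l] π) (a + 1))
    (h2 : ∀ π a, U π a ⊆ U π (a + 1)) {L L' : Lv j} (hr : 1 ≤ L.r) (he : 0 ≤ L.e)
    (hR : L.a + L.r + L'.a + L'.r ≤ R) (hc : Cp L.b L'.b) {u u' : List (Lt j)} (hu : u ∈ Cls L)
    (hu' : u' ∈ Cls L') (z : C) :
    Fb τ q U L' (bk τ u' z) ⊆ Bey τ q U R (bk τ u z) (L.r / 2) (u.drop (L.r / 2)) := by
  intro w hw
  obtain ⟨a1, a2, a3, -, a5⟩ := mem_Cls.1 hu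
  obtain ⟨b1, b2, b3, -, -⟩ := mem_Cls.1 hu'
  obtain ⟨c1, v', c2, c3, c4, c5⟩ := mem_Fb.1 hw
  refine Finset.mem_filter.2 ⟨?_, u.take (L.r / 2), invRev (u' ++ v'), ?_, ?_, ?_, ?_, ?_⟩
  · have := U_go h1 (invRev u ++ u') _ _ c1
    rw [go_append, go_bk] at this
    refine U_mono h2 _ ?_ this
    rw [List.length_append, invRev_length, a1, b1]
    omega
  · rw [List.length_take, a1]; omega
  · exact a5.nonneg he (List.take_prefix _ _)
  · rw [List.append_assoc, List.take_append_drop, List.length_append, invRev_length,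
      List.length_append, a1, b1, c3]
    omega
  · rw [List.append_assoc, List.take_append_drop, red_join]
    refine ⟨red_head.2 ⟨c2, by rwa [c4]⟩, (red_append.1 a2).1, ?_⟩
    rw [head_head, c4, b3]
    cases u with
    | nil => simp at a1; omega
    | cons x u =>
      have : L.b = (x :: u).head? := a3.symm
      rwa [← this]
  · rw [List.append_assoc, List.take_append_drop, go_append, go_bk, ← bk_apply, bk_append, ← c5,
      bk_apply, go_inv_go]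

omit [Fintype C] in
theorem Fb_sub_ch (h1 : ∀ π a l, U π a ⊆ U (go τ [l] π) (a + 1)) {L : Lv j} {l1 : Lt j} {S1 : ℕ}
    {v : List (Lt j)} (hv : v ∈ Vs L l1 S1) (π : C) :
    Fb τ q U L (bk τ v π) ⊆ Fb τ q U (L.ch l1 S1) π := by
  intro w hw
  obtain ⟨⟨a1, a2⟩, a3, -, -⟩ := mem_Vs.1 hv
  obtain ⟨c1, v', c2, c3, c4, c5⟩ := mem_Fb.1 hw
  refine mem_Fb.2 ⟨?_, v ++ v', red_head.2 ⟨c2, by rwa [c4]⟩, ?_, ?_, ?_⟩
  · have := U_go h1 v _ _ c1
    rwa [go_bk, a1] at this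
  · rw [List.length_append, a1, c3, add_comm]; rfl
  · rw [List.head?_append, a3]; rfl
  · rw [go_append, c5, go_bk]

omit [Fintype C] in
theorem Fb_disj {R : ℕ}
    (hi : ∀ x u u', IsReduced u → IsReduced u' → u.length ≤ R → u'.length ≤ R →
      go τ u x = go τ u' x → u = u') {L : Lv j} (hR : L.a + L.r ≤ R) {v v₁ : List (Lt j)}
    (hv : v ∈ idx j L.r L.l) (hv₁ : v₁ ∈ idx j L.r L.l) {π : C} {w : Z}
    (hw : w ∈ Fb τ q U L (bk τ v π)) (hw₁ : w ∈ Fb τ q U L (bk τ v₁ π)) : v = v₁ := by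
  obtain ⟨a1, a2⟩ := mem_idx.1 hv
  obtain ⟨b1, b2⟩ := mem_idx.1 hv₁
  obtain ⟨-, v', c2, c3, c4, c5⟩ := mem_Fb.1 hw
  obtain ⟨-, v₁', d2, d3, d4, d5⟩ := mem_Fb.1 hw₁
  refine (List.append_inj (hi (q w) (v ++ v') (v₁ ++ v₁') (red_head.2 ⟨c2, by rwa [c4]⟩)
    (red_head.2 ⟨d2, by rwa [d4]⟩) ?_ ?_ ?_) (a1.trans b1.symm)).1
  · rw [List.length_append]; omega
  · rw [List.length_append]; omega
  · rw [go_append, go_append, c5, d5, go_bk, go_bk]

variable (τ q U) in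
/-- The level vector after one step. -/
def nxt (L : Lv j) (l1 : Lt j) (S1 : ℕ) (ξ' : C → List (Lt j) → Z → ℂ) (π : C) (w : Z) : ℂ :=
  ∑ v ∈ Vs L l1 S1, if w ∈ Fb τ q U L (bk τ v π) then ξ' (bk τ v π) v w else 0

omit [Fintype C] in
theorem ip_nxt (h1 : ∀ π a l, U π a ⊆ U (go τ [l] π) (a + 1)) (X : Z → Z → ℂ) (L : Lv j)
    (l1 : Lt j) (S1 : ℕ) (ξ' : C → List (Lt j) → Z → ℂ) (π : C) (F' : Finset Z) (ζ : Z → ℂ) :
    ip X (Fb τ q U (L.ch l1 S1) π) F' (nxt τ q U L l1 S1 ξ' π) ζ =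
      ∑ v ∈ Vs L l1 S1, ip X (Fb τ q U L (bk τ v π)) F' (ξ' (bk τ v π) v) ζ := by
  simp only [ip, nxt, Finset.sum_mul]
  rw [Finset.sum_congr rfl fun w _ => Finset.sum_comm, Finset.sum_comm]
  refine Finset.sum_congr rfl fun v hv => ?_
  rw [← Finset.sum_subset (Fb_sub_ch h1 hv π) fun w _ hw => by simp [hw]]
  exact Finset.sum_congr rfl fun w hw => by simp only [if_pos hw]

theorem Nm_nxt {R : ℕ}
    (hi : ∀ x u u', IsReduced u → IsReduced u' → u.length ≤ R → u'.length ≤ R →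
      go τ u x = go τ u' x → u = u') {L : Lv j} (hR : L.a + L.r ≤ R) (l1 : Lt j) (S1 : ℕ)
    {ξ' : C → List (Lt j) → Z → ℂ} {ξ : C → Z → ℂ} {s : ℝ}
    (h : ∀ π, ∑ v ∈ idx j L.r L.l, nsq (Fb τ q U L π) (ξ' π v) ≤ s * nsq (Fb τ q U L π) (ξ π)) :
    Nm τ q U (L.ch l1 S1) (nxt τ q U L l1 S1 ξ') ≤ s * Nm τ q U L ξ := by
  have hsub : Vs L l1 S1 ⊆ idx j L.r L.l := Finset.filter_subset _ _
  have h1 : ∀ π, nsq (Fb τ q U (L.ch l1 S1) π) (nxt τ q U L l1 S1 ξ' π) ≤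
      ∑ v ∈ Vs L l1 S1, nsq (Fb τ q U L (bk τ v π)) (ξ' (bk τ v π) v) := fun π => by
    have h2 : ∀ w, ‖nxt τ q U L l1 S1 ξ' π w‖ ^ 2 = ∑ v ∈ Vs L l1 S1,
        if w ∈ Fb τ q U L (bk τ v π) then ‖ξ' (bk τ v π) v w‖ ^ 2 else 0 := fun w => by
      by_cases hw : ∃ v ∈ Vs L l1 S1, w ∈ Fb τ q U L (bk τ v π)
      · obtain ⟨v, hv, hw⟩ := hw
        have hn : ∀ v₁ ∈ Vs L l1 S1, v₁ ≠ v → w ∉ Fb τ q U L (bk τ v₁ π) := fun v₁ h1 h2 h3 =>
          h2 (Fb_disj hi hR (hsub h1) (hsub hv) h3 hw)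
        rw [nxt, Finset.sum_eq_single_of_mem v hv fun v₁ h1 h2 => if_neg (hn v₁ h1 h2),
          Finset.sum_eq_single_of_mem v hv fun v₁ h1 h2 => if_neg (hn v₁ h1 h2), if_pos hw,
          if_pos hw]
      · have hn : ∀ v ∈ Vs L l1 S1, w ∉ Fb τ q U L (bk τ v π) := fun v h1 h2 => hw ⟨v, h1, h2⟩
        rw [nxt, Finset.sum_eq_zero fun v h1 => if_neg (hn v h1),
          Finset.sum_eq_zero fun v h1 => if_neg (hn v h1)]
        simp
    rw [nsq, Finset.sum_congr rfl fun w _ => h2 w, Finset.sum_comm]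
    refine Finset.sum_le_sum fun v _ => ?_
    rw [← Finset.sum_filter, nsq]
    exact Finset.sum_le_sum_of_subset_of_nonneg (fun w hw => (Finset.mem_filter.1 hw).2)
      fun _ _ _ => sq_nonneg _
  refine (Finset.sum_le_sum fun π _ => h1 π).trans ?_
  rw [Finset.sum_comm, Finset.sum_congr rfl fun v _ =>
    (bk τ v).sum_comp fun π => nsq (Fb τ q U L π) (ξ' π v), Finset.sum_comm, Nm, Finset.mul_sum]
  exact Finset.sum_le_sum fun π _ => (Finset.sum_le_sum_of_subset_of_nonneg hsub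
    fun _ _ _ => nsq_nonneg _ _).trans (h π)

omit [Fintype C] in
theorem spl_all {R : ℕ} {X : Z → Z → ℂ} {Λ s : ℝ} (hΛ : 0 ≤ Λ) (hs : 2 * j ≤ s)
    (h : HS τ q U R X Λ s) (π : C) {L : Lv j} (hr : 1 ≤ L.r) (hR : L.a + L.r ≤ R) :
    Spl X Λ s (((2 * j : ℝ) ^ (2 * L.r))⁻¹) (Fb τ q U L π) (idx j L.r L.l)
      (Bey τ q U R π (L.r / 2)) := by
  rcases hr.eq_or_lt with h1 | h1
  · refine fun ξ => ⟨fun _ => ξ, ?_, fun v _ ζ => ?_⟩
    · rw [Finset.sum_const, nsmul_eq_mul]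
      refine mul_le_mul_of_nonneg_right (le_trans ?_ hs) (nsq_nonneg _ _)
      have := (Finset.card_filter_le _ fun v => IsReduced (v ++ L.l.toList)).trans
        (card_wds (j := j) (L.r - L.r / 2))
      rw [← h1] at this
      rw [← h1]
      exact_mod_cast this.trans (by norm_num)
    · simp only [sub_self, zero_mul, Finset.sum_const_zero, norm_zero]
      positivity
  · exact h π L.a L.l L.r h1 hR

theorem step {R : ℕ} (hj : 1 ≤ j)
    (hi : ∀ x u u', IsReduced u → IsReduced u' → u.length ≤ R → u'.length ≤ R →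
      go τ u x = go τ u' x → u = u') (h1 : ∀ π a l, U π a ⊆ U (go τ [l] π) (a + 1))
    (h2 : ∀ π a, U π a ⊆ U π (a + 1)) {X : Z → Z → ℂ} {Λ s B : ℝ} (hΛ : 0 ≤ Λ) (hs : 2 * j ≤ s)
    (hB : 0 ≤ B) (h : HS τ q U R X Λ s) {L L' : Lv j} (hr : 1 ≤ L.r) (hr' : L'.r ≤ L.r)
    (he : 0 ≤ L.e) (hR : L.a + L.r + L'.a + L'.r ≤ R) (hc : Cp L.b L'.b) (ζ : C → Z → ℂ)
    (ih : ∀ l1 S1 ξ, ‖Ph τ q U X (L.ch l1 S1) L' ξ ζ‖ ≤
      B * Λ * √(Nm τ q U (L.ch l1 S1) ξ) * √(Nm τ q U L' ζ)) (ξ : C → Z → ℂ) :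
    ‖Ph τ q U X L L' ξ ζ‖ ≤
      (1 + 2 * j * (R + 1) * (s + 1) * B) * Λ * √(Nm τ q U L ξ) * √(Nm τ q U L' ζ) := by
  choose ξ' p1 p2 using fun π => spl_all hΛ hs h π hr (by omega : L.a + L.r ≤ R) (ξ π)
  have hj' : (1 : ℝ) ≤ 2 * j := by exact_mod_cast (by omega : 1 ≤ 2 * j)
  have e : Ph τ q U X L L' ξ ζ = (∑ u ∈ Cls L, ∑ u' ∈ Cls L', ∑ z,
      ip X (Fb τ q U L (bk τ u z)) (Fb τ q U L' (bk τ u' z))
        (fun w => ξ (bk τ u z) w - ξ' (bk τ u z) (u.drop (L.r / 2)) w) (ζ (bk τ u' z))) +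
      ∑ c ∈ (Finset.univ : Finset (Lt j)) ×ˢ Finset.range (R + 1),
        Ph τ q U X (L.ch c.1 c.2) L' (nxt τ q U L c.1 c.2 ξ') ζ := by
    have e1 : ∑ c ∈ (Finset.univ : Finset (Lt j)) ×ˢ Finset.range (R + 1),
        Ph τ q U X (L.ch c.1 c.2) L' (nxt τ q U L c.1 c.2 ξ') ζ =
        ∑ u ∈ Cls L, ∑ u' ∈ Cls L', ∑ z,
          ip X (Fb τ q U L (bk τ u z)) (Fb τ q U L' (bk τ u' z))
            (ξ' (bk τ u z) (u.drop (L.r / 2))) (ζ (bk τ u' z)) := by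
      rw [sum_split hr (by omega : L.r ≤ R) he]
      refine Finset.sum_congr rfl fun c _ => Finset.sum_congr rfl fun u hu => ?_
      have hl : u.length = L.r / 2 := (mem_Cls.1 hu).1
      simp only [ip_nxt h1, bk_append, List.drop_left' hl]
      rw [Finset.sum_congr rfl fun u' _ => Finset.sum_comm, Finset.sum_comm]
    rw [e1, Ph]
    simp only [← Finset.sum_add_distrib, ip]
    refine Finset.sum_congr rfl fun _ _ => Finset.sum_congr rfl fun _ _ =>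
      Finset.sum_congr rfl fun _ _ => Finset.sum_congr rfl fun _ _ =>
      Finset.sum_congr rfl fun _ _ => by ring
  set N := √(Nm τ q U L ξ) with hN
  set N' := √(Nm τ q U L' ζ) with hN'
  have n0 : 0 ≤ N := Real.sqrt_nonneg _
  have n0' : 0 ≤ N' := Real.sqrt_nonneg _
  rw [e, add_mul, add_mul, add_mul]
  refine norm_add_le_of_le ?_ ?_
  · refine (norm_sum_le_of_le _ fun u hu => norm_sum_le_of_le _ fun u' hu' =>
      cs τ q U L L' ξ ζ u u' (c := ((2 * j : ℝ) ^ (2 * L.r))⁻¹ * Λ) (by positivity) _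
        fun z => ?_).trans ?_
    · have hsub := Fb_sub_Bey (q := q) h1 h2 hr he hR hc hu hu' z
      obtain ⟨a1, a2, -⟩ := mem_Cls.1 hu
      have hv : u.drop (L.r / 2) ∈ idx j L.r L.l := by
        refine mem_idx.2 ⟨by rw [List.length_drop, a1], ?_⟩
        rw [← List.take_append_drop (L.r / 2) u, List.append_assoc] at a2
        exact (red_append.1 a2).2.1
      have := p2 (bk τ u z) _ hv
        fun w => if w ∈ Fb τ q U L' (bk τ u' z) then ζ (bk τ u' z) w else 0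
      convert this using 3
      · rw [ip]
        refine Finset.sum_congr rfl fun w _ => ?_
        rw [← Finset.sum_subset hsub fun w _ hw => by simp [hw]]
        exact Finset.sum_congr rfl fun w hw => by simp only [if_pos hw]
      · rw [nsq, nsq, ← Finset.sum_subset hsub fun w _ hw => by simp [hw]]
        exact Finset.sum_congr rfl fun w hw => by simp only [if_pos hw]
    · simp only [Finset.sum_const, nsmul_eq_mul]
      have c1 : ((Cls L).card : ℝ) ≤ (2 * j) ^ L.r := by exact_mod_cast card_Cls L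
      have c2 : ((Cls L').card : ℝ) ≤ (2 * j) ^ L.r :=
        le_trans (by exact_mod_cast card_Cls L') (pow_le_pow_right₀ hj' hr')
      calc _ ≤ (2 * j : ℝ) ^ L.r * ((2 * j) ^ L.r * (((2 * j : ℝ) ^ (2 * L.r))⁻¹ * Λ * N * N')) := by
            gcongr
        _ = _ := by
            rw [two_mul L.r, pow_add]
            field_simp
  · have hs0 : 0 ≤ s := by linarith
    have hq : √s ≤ s + 1 := Real.sqrt_le_iff.2 ⟨by linarith, by nlinarith⟩
    refine (norm_sum_le_of_le _ (n := fun _ => B * Λ * ((s + 1) * N) * N') fun c _ =>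
      (ih _ _ _).trans ?_).trans (le_of_eq ?_)
    · have := Real.sqrt_le_sqrt (Nm_nxt hi (by omega : L.a + L.r ≤ R) c.1 c.2 p1)
      rw [Real.sqrt_mul hs0] at this
      gcongr
      exact this.trans (mul_le_mul_of_nonneg_right hq n0)
    · simp only [Finset.sum_const, nsmul_eq_mul, Finset.card_product, Finset.card_univ,
        Finset.card_range, Fintype.card_prod, Fintype.card_fin, Fintype.card_bool]
      push_cast
      ring

theorem size_half {r : ℕ} (h : 1 ≤ r) : (r / 2).size + 1 ≤ r.size := by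
  have h1 : 0 < r.size := Nat.size_pos.2 h
  have h2 : r / 2 < 2 ^ (r.size - 1) := by
    have := Nat.lt_size_self r
    rw [show r.size = r.size - 1 + 1 by omega, pow_succ] at this
    omega
  have := Nat.size_le.2 h2
  omega

theorem bound {R : ℕ} (hj : 1 ≤ j)
    (hi : ∀ x u u', IsReduced u → IsReduced u' → u.length ≤ R → u'.length ≤ R →
      go τ u x = go τ u' x → u = u') (h1 : ∀ π a l, U π a ⊆ U (go τ [l] π) (a + 1))
    (h2 : ∀ π a, U π a ⊆ U π (a + 1)) {Λ s : ℝ} (hΛ : 0 ≤ Λ) (hs : 2 * j ≤ s) (n : ℕ) :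
    ∀ X : Z → Z → ℂ, FB X Λ → HS τ q U R X Λ s → HS τ q U R (fun w w' => X w' w) Λ s →
      ∀ L L' : Lv j, L.r.size + L'.r.size ≤ n → 0 ≤ L.e → 0 ≤ L'.e →
        L.a + L.r + L'.a + L'.r ≤ R → Cp L.b L'.b → ∀ ξ ζ, ‖Ph τ q U X L L' ξ ζ‖ ≤
          ((2 * j + 1) * (R + 1) * (s + 1)) ^ n * Λ * √(Nm τ q U L ξ) * √(Nm τ q U L' ζ) := by
  have hj' : (1 : ℝ) ≤ j := by exact_mod_cast hj
  have hR0 : (0 : ℝ) ≤ R := Nat.cast_nonneg R
  have hK0 : (1 : ℝ) ≤ (R + 1) * (s + 1) := by nlinarith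
  have hK : (1 : ℝ) ≤ (2 * j + 1) * (R + 1) * (s + 1) := by rw [mul_assoc]; nlinarith
  induction n with
  | zero =>
    intro X hX _ _ L L' hn _ _ _ _ ξ ζ
    rw [pow_zero, one_mul]
    exact base τ q U hΛ hX (Nat.size_eq_zero.1 (by omega)) (Nat.size_eq_zero.1 (by omega)) ξ ζ
  | succ n ih =>
    have hB := one_le_pow₀ (n := n) hK
    have key : ∀ X : Z → Z → ℂ, FB X Λ → HS τ q U R X Λ s →
        HS τ q U R (fun w w' => X w' w) Λ s → ∀ L L' : Lv j, L.r.size + L'.r.size ≤ n + 1 →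
        0 ≤ L.e → 0 ≤ L'.e → L.a + L.r + L'.a + L'.r ≤ R → Cp L.b L'.b → L'.r ≤ L.r →
        ∀ ξ ζ, ‖Ph τ q U X L L' ξ ζ‖ ≤ ((2 * j + 1) * (R + 1) * (s + 1)) ^ (n + 1) * Λ *
          √(Nm τ q U L ξ) * √(Nm τ q U L' ζ) := by
      intro X hX hS hS' L L' hn he he' hR hc hr ξ ζ
      rcases Nat.eq_zero_or_pos L.r with h0 | h0
      · refine (base τ q U hΛ hX h0 (by omega) ξ ζ).trans ?_
        gcongr
        exact le_mul_of_one_le_left hΛ (one_le_pow₀ hK)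
      · refine (step hj hi h1 h2 hΛ hs (zero_le_one.trans hB) hS h0 hr he hR hc ζ
          (fun l1 S1 ξ => ih X hX hS hS' (L.ch l1 S1) L' ?_ he he' ?_ hc ξ ζ) ξ).trans ?_
        · have := size_half h0
          simp only [Lv.ch]
          omega
        · simp only [Lv.ch]
          omega
        · gcongr
          rw [pow_succ]
          have := mul_le_mul hK0 hB zero_le_one (zero_le_one.trans hK0)
          nlinarith
    intro X hX hS hS' L L' hn he he' hR hc ξ ζ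
    rcases le_total L'.r L.r with hr | hr
    · exact key X hX hS hS' L L' hn he he' hR hc hr ξ ζ
    · rw [← Ph_swap, mul_right_comm]
      exact key _ (FB.swap hX) hS' hS L' L (by omega) he' he (by omega) hc.symm hr ζ ξ

end Pool.Agent.P.MP_9167e9_an.Near
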